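import Pool.Agent.Q36.PB.Asm
import Pool.Agent.Q36.PB.Lam
import Pool.Agent.Q36.PB.Trh
import Pool.Agent.Q36.PB.Rnk
import Pool.Agent.Q36.PB.Cne
import Pool.Agent.Q36.PB.Sfc
import Pool.Agent.Q36.PB.Rel
import Pool.Agent.Q36.PB.Qpr
import Pool.Agent.Q26.PB.Min
import Pool.Agent.Q36.PB.Fan

/-!
# A projective bundle over the plane with a pseudo-effective cone which is not simplicial

Let `f : P² → P²`, `f = [x₀² : x₁² : x₂²]`, and `E = f^*(T_{P²}(-1)) ⊕ O(1)`, a vector bundle of rank
`3` on `P²`. The dual of `E(-1)`, up to a twist on the second factor, has at `x` the fibre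
`{(u, v) : x₀² u₀ + x₁² u₁ + x₂² u₂ = 0, v ∈ ℂ x}`; so the projectivisation of `E` is
the fourfold `{(x, [u : v]) : f(x) · u = 0, v × x = 0}` in `P² × P⁵`. The cone of
pseudo-effective cycles of codimension `2` is the cone over a quadrilateral; it is not simplicial.
The four extremal rays are given by the fibre over a point, by `P(O ⊕ O(1))` in the
restriction of the bundle to the line `x₀ = 0`, by a hyperplane section `u₀ = 0` of
`P(f^* T(-1)) = {v = 0}`, and by the section `u = 0`.

Subvarieties are given by bihomogeneous prime ideals of `ℂ[x₀, x₁, x₂, w₀, …, w₅]`. Their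
intersection numbers with `h^i ξ^(m-i)` are read off from the bigraded Hilbert functions.

The proof that every surface satisfies the four inequalities: if the surface is not contained in
the divisor `{v = 0}`, then the ratio `v/x` is a nonzero section of `O(-h + ξ)` on it; this gives
inequalities between the values of the Hilbert function. The divisor `{v = 0}` is the
hypersurface `x₀² u₀ + x₁² u₁ + x₂² u₂ = 0` in `P² × P²`. Its bigraded coordinate ring is factorial
(Nagata's criterion), so all its surfaces are complete intersections up to lower dimensional parts.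
-/

set_option autoImplicit false

open Q36.PB

namespace Pool.Agent.Results.MP_f1b239_ag.NotSimplicial

/-- The vector bundle of rank `3` given by the matrix `M0`: the projectivisation is
`{(x, [u : v]) : x₀² u₀ + x₁² u₁ + x₂² u₂ = 0, v × x = 0}` in `P² × P⁵`. It is the bundle
`f^*(T(-1)) ⊕ O(1)`, up to a twist by a line bundle. -/
noncomputable def bundle : Bundle 3 := B0 rnk

/-- The cone of pseudo-effective cycles of codimension `2` on the projectivisation of `bundle` is
generated by the four vectors `(1,0,0), (1,1,0), (0,2,1), (1,1,1)` (the intersection numbers of a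
surface with `ξ², hξ, h²`); it is not simplicial. -/
theorem result :
    eff bundle 2 = (PointedCone.hull ℝ
      ({![1, 0, 0], ![1, 1, 0], ![0, 2, 1], ![1, 1, 1]} : Set (Fin 3 → ℝ)) : Set (Fin 3 → ℝ)) ∧
    ¬ IsSimplicial (eff bundle 2) := by
  have hRel := rel qpr (Pool.Agent.Q26.PB.min_g qpr fin) fin (drp fin) lim
  obtain ⟨h1, h2, h3, h4, h5⟩ := facts rnk (lam fin) inq trh hRel qpr fin (sfa grk fin)
    (sfb grk fin) (sfd grk fin)
  exact ⟨closure_eq (Classes rnk) h1 h2 h3 h4 h5, cne (Classes rnk) h1 h2 h3 h4 h5⟩

end Pool.Agent.Results.MP_f1b239_ag.NotSimplicial
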